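import Pool.Agent.Run7.h848.XG.Smash

/-!
# Kimura finite-dimensional, or exponentially many cycles modulo smash-nilpotence

Let `X` be a smooth projective complex variety which satisfies the sign conjecture `C⁺` (the projector to
the even cohomology is algebraic), `b` the sum of its Betti numbers, and for `n ≥ 0` let `ρ(n)` be the rank
of the group of the cycles of all codimensions on `X ^ n` modulo numerical equivalence and `σ(n) ≥ ρ(n)` the
dimension of `A*(X ^ n) / A*_⊗(X ^ n)`, a number or infinity. The cycles modulo algebraic equivalence are a
larger group (Voevodsky, Voisin), and Voevodsky's conjecture is equivalent to `σ = ρ`; it implies that `X` is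
finite-dimensional in the sense of Kimura.

**Theorem.** (1) Let `y` be a numerically trivial correspondence from `X ^ m` to itself which is not
nilpotent (if there is none for all `m` then `X` is finite-dimensional). Then, for ALL `n`,

  `σ(2 m n) ≥ ∑ i ≤ n, (n choose i) ρ(2 m (n - i))`.

(2) The sum is at least `(b ^ (2 m) + 1) ^ n / (m n + 1) ^ (b ^ 2)`, for all `m`, `n`.

(3) If `X` is not finite-dimensional in the sense of Kimura then there is a real number `c > b` with
`σ(n) ≥ c ^ n` for all sufficiently large `n`.

The cycles modulo homological equivalence on `X ^ n` have dimension at most `b ^ n`. So in the case (3) the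
conjecture of Voevodsky fails for exponentially many cycles: the dimension of `A*_hom(X ^ n) / A*_⊗(X ^ n)`
divided by `b ^ n` grows exponentially. Conversely, if `liminf σ(n) ^ (1 / n) ≤ b`, in particular if the
dimension of the group of the cycles on `X ^ n` modulo algebraic equivalence is at most
`b ^ n exp (o (n))` for infinitely many `n`, then `X` is finite-dimensional. (The zero-one law of the
starting tree, `MP_550f75_ag.ZeroOneLaw`: the ratio `σ / ρ` tends to `1` or to infinity, without a
rate; if it tends to infinity for a finite-dimensional `X` the growth may be slower than exponential.)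

The setting. `C` is the rigid symmetric monoidal pseudo-abelian category of Chow motives over `ℂ` (graded
pieces added), `T = h(X)`, which is self-dual, `tp T n = h(X ^ n)`, `R` the singular cohomology with
coefficients in an algebraically closed field.

Proof of (1). If `σ(2 m)` is finite, there is an idempotent `p ≠ 0` among the numerically trivial
endomorphisms of `X ^ m`: the endomorphisms whose cycle is smash-nilpotent form a nil ideal of finite
codimension, one applies Fitting's lemma in the quotient and lifts the idempotent. Let `P = X ^ m × X ^ m`
and `z` the cycle `p` on `P`. The motive `P` is the sum of `A` and `B`, where `B` is the image of `1 × p`, with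
`z` in `B`, and all endomorphisms of `B` numerically trivial. The powers of `P` are the sums of `2 ^ n`
pieces, products of copies of `A` and of `B`. In a piece with `i` factors `B` we insert `z` into these
factors and arbitrary cycles in the product of the others. They are independent modulo numerical
equivalence, also modulo smash-nilpotence: a contraction with a cycle on the product of the factors `A`
reduces this to the claim that the product of `i` copies of `z` is not smash-nilpotent, and this is true
since `p` is not nilpotent. Numerical equivalence does not see the difference of `A` and `P`.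
(2) is the binomial theorem and the bound `ρ(2 k) ≥ b ^ (2 k) / (k + 1) ^ (b ^ 2)` of the starting tree
(`N64/AF`). For (3) one needs that `X` is finite-dimensional if numerically trivial endomorphisms of
all powers of `X` are nilpotent (`kimura_of_nil` in `N64/AF`).
-/

set_option autoImplicit false

open CategoryTheory MonoidalCategory Filter
open Pool.Agent.Y112.SR Pool.Agent.Y112.KD Pool.Agent.N64.AF
open scoped ENNReal

namespace Pool.Agent.Results.MP_bf8edd_ag.ExponentialGap

universe v u w

/-- Kimura finite-dimensionality, or exponentially many cycles modulo smash-nilpotence. -/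
theorem result {C : Type u} [Category.{v} C] [Preadditive C] [MonoidalCategory C]
    [MonoidalPreadditive C] [SymmetricCategory C] [RightRigidCategory C]
    [Linear ℚ C] [MonoidalLinear ℚ C] [IsIdempotentComplete C]
    {K : Type w} [Field K] [IsAlgClosed K] [Algebra ℚ K] {R : SuperRealisation C K}
    {T : C} [ExactPairing T T] (h : IsPow ℚ R T) :
    (∀ m : ℕ, (∃ y : End (tp T m), NumTriv (y : tp T m ⟶ tp T m) ∧ ¬ IsNilpotent y) → ∀ n : ℕ,
      ((∑ i ∈ Finset.range (n + 1), n.choose i * numRank ℚ (tp T (2 * m * (n - i))) : ℕ) : ℕ∞) ≤
        dimE ℚ ((𝟙_ C ⟶ tp T (2 * m * n)) ⧸ smashSub ℚ (tp T (2 * m * n)))) ∧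
    (∀ m n : ℕ, (bt R T ^ (2 * m) + 1) ^ n ≤ (m * n + 1) ^ (bt R T ^ 2) *
      ∑ i ∈ Finset.range (n + 1), n.choose i * numRank ℚ (tp T (2 * m * (n - i)))) ∧
    (Pool.Agent.R905.IsKimuraFinite T ∨
      ∃ c : ℝ, (bt R T : ℝ) < c ∧ ∀ᶠ n : ℕ in atTop, ENNReal.ofReal (c ^ n) ≤
        ((dimE ℚ ((𝟙_ C ⟶ tp T n) ⧸ smashSub ℚ (tp T n)) : ℕ∞) : ℝ≥0∞)) :=
  Pool.Agent.Run7.h848.XG.kimura_or_smash h

end Pool.Agent.Results.MP_bf8edd_ag.ExponentialGap
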