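import Pool.Agent.Run7.h312.V1.Final

/-!
# Smash-nilpotence of one-cycles on products with one arbitrary factor

All varieties are smooth projective varieties over `ℂ`, Chow groups and cohomology have rational
coefficients. Let `𝒩` be the class of the varieties `Y` such that for all curves `T` the homologically
trivial one-cycles on `Y × T` are smash-nilpotent (`TimesCurves`).

1. Let `Y_1, ..., Y_m` be in `𝒩`, let `X` be an arbitrary variety, and let `a` be a homologically
   trivial one-cycle on `X × Y_1 × ⋯ × Y_m`. If `b_1(Y_j) = 0` for all `j` (for example, for Kummer and
   Fermat surfaces and their products) then `a` is smash-nilpotent if and only if its push-forward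
   to `X` is. So Voevodsky's conjecture for the one-cycles on `X × Y_1 × ⋯ × Y_m` is equivalent to the
   conjecture for the one-cycles on `X`, for every variety `X`. If `b_1(Y_j) ≠ 0` then one has to add
   the condition that the image of `a` in `X × T_j` is smash-nilpotent, where `T_j` is a curve through
   which the Albanese projector of `Y_j` factors (for example a general linear section).
2. A product of varieties is in `𝒩` if and only if all factors are in `𝒩`.
3. Birational motives: if the birational motive of `Y` is a direct summand of a sum of birational
   motives of varieties `Z` such that the homologically trivial one-cycles on `Z` are smash-nilpotent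
   (that are in `𝒩`), then the same is true for `Y`.
4. Curves are in `𝒩`, and for `Y` in `𝒩` the homologically trivial one-cycles on `Y` are
   smash-nilpotent.

By 2, 3 and 4 all varieties whose birational motives are direct summands of birational motives of
products of curves are in `𝒩`: varieties dominated by products of curves (for them the conjecture for
one-cycles is a theorem of Sebastian), and, for instance, all varieties with a rational map to such a
variety whose general fibres are rationally connected.

The setting is the one of the starting library: `𝒱` is a class of varieties, `C` a theory with the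
formal properties of the Chow groups (`IsChowProj`), `H` a Weil cohomology theory (`IsWeilProj`).
The known properties which are used are `CurveProperties` (zero-cycles of degree zero are algebraically
trivial, one-cycles are generated by the images of smooth projective curves, `h^1` of a curve is
oddly finite-dimensional) and `DivisorsOnCurves` (homologically trivial divisors on a product of two
curves are algebraically trivial). The Albanese projectors of Murre exist for all varieties.

Proof. An external power of a class vanishes if and only if the class lies in all prime adequate
relations `I` (starting library). Modulo `I` zero-cycles of degree zero vanish, and one-cycles on a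
product are determined by their images in the products of two factors (starting library). On
`X × Y` the one-cycles are generated by the classes of curves `(f, g) : T ⟶ X × Y`; up to cycles on the
factors this class is the composition of the correspondence of `f` with the graph of `g` on
`T × Y`. If `Y` is in `𝒩` then this graph and its composition with the Albanese projector `E` of `Y`
agree modulo `I`. So `a = E ∘ a` modulo `I` for all homologically trivial one-cycles `a` on `X × Y`, and
`E ∘ a` is the image of a homologically trivial one-cycle on `X × T_Y`.
-/

set_option autoImplicit false

open CategoryTheory AlgebraicGeometry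

universe u v w

namespace Pool.Agent.Results.MP_bf8edd_ag.OneArbitraryFactor

open Pool.Agent.H914 Pool.Agent.H914.VarClass Pool.Agent.H914.VarClass.Obj Pool.Agent.W492.BB
  Pool.Agent.TH133 Pool.Agent.TH829.Prime Pool.Agent.X308.V Pool.Agent.X308.A
  Pool.Agent.Run7.h312.V1

/-- Smash-nilpotence of homologically trivial one-cycles on products with one arbitrary factor `X 0`,
and the closure properties of the class of the varieties `Y` such that the homologically trivial
one-cycles on the products of `Y` with curves are smash-nilpotent. -/
theorem result {k : Type u} [Field k] {𝒱 : VarClass k} {C : TheoryData.{u, v, 0} 𝒱 ℚ}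
    [IsChowProj C] {K : Type w} [Field K] (H : WeilTheoryData.{u, v, w} C K) [IsWeilProj H]
    (hP : CurveProperties C) (hD : DivisorsOnCurves H) :
    (∀ (n : ℕ) (X : Fin (n + 2) → 𝒱.Obj) (P : 𝒱.Obj) (pr : ∀ i, P ⟶ X i), IsProduct pr →
      (∀ i, i ≠ 0 → TimesCurves H (X i)) →
      (∀ a : C.A P, OneHom H a →
        (∀ i, i ≠ 0 → AlbaneseZero H (X i) ∨ ∃ (T : 𝒱.Obj) (ψ : C.A ((X i).prod T)),
          AlbaneseBy H (X i) T ψ ∧
            SmashNilpotent C (C.comp (C.down (Obj.lift (pr 0) (pr i)) a) ψ)) →
        (SmashNilpotent C a ↔ SmashNilpotent C (C.down (pr 0) a))) ∧
      ((∀ i, i ≠ 0 → AlbaneseZero H (X i) ∨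
          ∃ T, AlbaneseVia H (X i) T ∧ OneNilpotent H ((X 0).prod T)) →
        (OneNilpotent H P ↔ OneNilpotent H (X 0)))) ∧
    (∀ (n : ℕ) (X : Fin (n + 2) → 𝒱.Obj) (P : 𝒱.Obj) (pr : ∀ i, P ⟶ X i), IsProduct pr →
      (∀ i, AlbaneseZero H (X i) ∨ ∃ T, AlbaneseVia H (X i) T) →
      (TimesCurves H P ↔ ∀ i, TimesCurves H (X i))) ∧
    (∀ (S : 𝒱.Obj → Prop) (Y : 𝒱.Obj), BirationallyGenerated C S Y →
      ((∀ Z, S Z → OneNilpotent H Z) → OneNilpotent H Y) ∧
      ((∀ Z, S Z → TimesCurves H Z) → TimesCurves H Y)) ∧
    (∀ T : 𝒱.Obj, T.dim = 1 → TimesCurves H T) ∧
    ∀ Y : 𝒱.Obj, TimesCurves H Y → OneNilpotent H Y :=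
  final H hP hD

end Pool.Agent.Results.MP_bf8edd_ag.OneArbitraryFactor
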