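import Pool.Agent.Run7.h634.RV.Ker

/-!
# Voevodsky's conjecture: rational varieties, and cycles just below half of the dimension

Denote by `V(X, m)` the statement that all homologically trivial cycles of codimension `m` on `X` are
smash nilpotent (rational coefficients); `i = dim X - m` is the dimension of the cycles.

**Theorem.**

1. Let `T` be a set of pairs `(m, i)` which contains for every `N` a pair with `m ≥ N` and `i ≥ N` (for
   instance all `(i + 1, i)` with `i` in an infinite set). The conjecture is true (for all `X` and `m`) if and
   only if `V(W, m)` is true for all rational varieties `W` with `(m, dim W - m)` in `T`.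
2. Let `m < m'` and `M` be given. If `V(W, m')` is true for the rational varieties of dimension at least
   `M`, then `V(X, m)` is true for all `X`.
3. Let `i < i'` and `M` be given. If the conjecture is true for the `i'`-dimensional cycles on the
   rational varieties of dimension at least `M`, then for the `i`-dimensional cycles on all `X`.
4. If `V(X, i + 1)` is true for all `X` of dimension `2 i + 1`, then the conjecture is true for the
   `i`-dimensional cycles on all `X` of dimension at least `2 i + 1`.
5. Let `i < i'`. If `V(X, i' + 1)` is true for all `X` of dimension `2 i' + 1`, then the conjecture is true for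
   the `i`-dimensional cycles on all `X`.

Here the rational varieties can be restricted to the blow-ups of projective spaces along smooth
subvarieties. For example (4, `i = 1`) the conjecture for one-cycles follows from the case of
threefolds, and (5) the conjecture for two-cycles on fivefolds implies the one for one-cycles on all
varieties; the whole conjecture follows from the case `dim X = 2 m - 1`, for any infinite set of `m`.

## Proof

(1), (2), (3) Let `W` be the blow-up of a projective space along `X`, of codimension `c`. For `1 ≤ j < c` the
motive `h(X)(-j)` is a direct summand of `h(W)`. So a homologically trivial cycle `z` of codimension `m` and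
dimension `i` on `X` gives such a cycle of codimension `m + j` and dimension `i + (c - j)` on `W`, which is
smash nilpotent only if `z` is smash nilpotent. The numbers `j ≥ 1` and `c - j ≥ 1` are arbitrary, as long as
`X` can be embedded in a projective space of dimension `dim X + c`. (4) Let the dimension `i` of `z` satisfy
`dim X ≥ 2 i + 2`. By Kleiman's theorem `z` is represented by disjoint smooth subvarieties and is
contained in a smooth ample divisor `Y`, and it is homologically trivial on `Y` by the weak Lefschetz
theorem. (5) follows from (3) and (4).

The theories `C` and `H` in the statement have the formal properties of the Chow groups with rational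
coefficients and of a Weil cohomology theory (`IsChowProj`, `IsWeilProj`); the motive of a blow-up
(`HasBlowUps`, `IsBlowUp`) and in 4 and 5 the divisors through cycles of small dimension
(`HasHomSections`) are the other known results which are used.
-/

set_option autoImplicit false

open CategoryTheory AlgebraicGeometry

universe u v w

namespace Pool.Agent.Results.MP_bf8edd_ag.RationalVarietiesSuffice

open Pool.Agent.H914 Pool.Agent.H914.VarClass Pool.Agent.W492.BB Pool.Agent.TH133
  Pool.Agent.Run7.H634.RV

/-- **Voevodsky's conjecture for rational varieties, and just below half of the dimension.** `𝓡` is a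
class of varieties which contains, for every `X`, blow-ups of all projective spaces of large
dimension along `X` (for instance the smooth projective rational varieties), and `Voevodsky H X m`
says that the homologically trivial cycles of codimension `m` on `X` are smash nilpotent (rational
coefficients). The five parts are those of the theorem above. -/
theorem result {k : Type u} [Field k] {𝒱 : VarClass k} {C : TheoryData.{u, v, 0} 𝒱 ℚ}
    [IsChowProj C] {K : Type w} [Field K] (H : WeilTheoryData.{u, v, w} C K) [IsWeilProj H]
    {𝓡 : 𝒱.Obj → Prop} (h𝓡 : HasBlowUps C 𝓡) :
    (∀ T : ℕ → ℕ → Prop, CofinalPairs T → ((∀ (X : 𝒱.Obj) (m : ℕ), Voevodsky H X m) ↔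
      ∀ m i : ℕ, T m i → ∀ V : 𝒱.Obj, 𝓡 V → V.dim = m + i → Voevodsky H V m)) ∧
    (∀ m m' M : ℕ, m < m' → (∀ V : 𝒱.Obj, 𝓡 V → M ≤ V.dim → Voevodsky H V m') →
      ∀ X : 𝒱.Obj, Voevodsky H X m) ∧
    (∀ i i' M : ℕ, i < i' →
      (∀ (V : 𝒱.Obj) (m : ℕ), 𝓡 V → M ≤ V.dim → m + i' = V.dim → Voevodsky H V m) →
      ∀ (X : 𝒱.Obj) (m : ℕ), m + i = X.dim → Voevodsky H X m) ∧
    (HasHomSections H → ∀ i : ℕ, (∀ X : 𝒱.Obj, X.dim = 2 * i + 1 → Voevodsky H X (i + 1)) →
      ∀ (X : 𝒱.Obj) (m : ℕ), m + i = X.dim → X.dim + 1 ≤ 2 * m → Voevodsky H X m) ∧
    (HasHomSections H → ∀ i i' : ℕ, i < i' →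
      (∀ X : 𝒱.Obj, X.dim = 2 * i' + 1 → Voevodsky H X (i' + 1)) →
      ∀ (X : 𝒱.Obj) (m : ℕ), m + i = X.dim → Voevodsky H X m) :=
  voevodsky_main h𝓡

end Pool.Agent.Results.MP_bf8edd_ag.RationalVarietiesSuffice
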