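import Pool.Agent.Run7.h570.GAP.SmashGap

/-!
# MP_bf8edd_ag: Voevodsky's conjecture for one explicit cycle

Let `X` be a smooth projective variety over `ℂ` whose cohomology is the direct sum of a part spanned by `b`
algebraic classes `a_i` with rational intersection numbers (and an invertible intersection matrix `G`)
and of a part of odd degree and of dimension `2 n`. For instance `X` is a smooth quintic threefold, with
`a_i` the powers of the hyperplane class, `b = 4` and `2 n = 204`; or any complete intersection of odd
dimension; or a surface with `p_g = q = 0` (`n = 0`). Let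

`t = Δ - ∑ (G⁻¹)_(i, j) a_i × a_j ∈ CH(X × X)_ℚ`,

and let `H` be the sum of the products `t_(i_1, j_1) ⋯ t_(i_(n+1), j_(n+1))` over all partitions of the
`2 n + 2` factors of `X ^ (2 n + 2)` into pairs. The cycle `H` is homologically trivial: its class is the
exterior power `ω ^ (n + 1) = 0` of the intersection form `ω` of the odd cohomology, of dimension `2 n`.

Theorem.

1. The following are equivalent: `H` is smash-nilpotent; `H = 0`; `Sym^(2 n + 1) (X, t) = 0`, that is, `X` is
   finite-dimensional in the sense of Kimura; for some `N` the permanent `∑_σ ∏_i t_(i, N + σ(i))` is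
   smash-nilpotent. So for these varieties Voevodsky's conjecture for the one cycle `H` is equivalent to
   the finite-dimensionality of `X`.
2. If `H` is not smash-nilpotent, then
   * at least `((b + 2 n + 4) ^ m + (b - 2 n - 4) ^ m) / (2 binomial(⌊m / 2⌋ + D, D))`,
     `D = (2 n + 3) (2 n + 5)`, of the products on `X ^ m` of disjoint diagonals and classes `a_i` (each
     factor of `X ^ m` used once) are linearly independent modulo smash-nilpotent cycles. Modulo
     homological equivalence they span a space of dimension at most `(b + 2 n) ^ m`; so Voevodsky's
     conjecture fails for a space of homologically trivial cycles on `X ^ m` whose dimension grows at least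
     like `(b + 2 n + 4 - o(1)) ^ m`, all of them combinations of these explicit products;
   * if a linear combination `∑_σ c_σ ∏_i t_(i, k + σ(i))` on `X ^ (2 k)` is smash-nilpotent, then `c` acts as
     zero on the `k`-th tensor power of the super vector space with `2` even and `2 n + 2` odd dimensions;
   * for all `m < 6 (n + 2)` the `(m - 1)!!` products of the pull-backs of `t` to `X ^ m` for the partitions
     of the factors into pairs are linearly independent modulo smash-nilpotent cycles: no
     nontrivial combination of them is smash-nilpotent, although for `m ≥ 2 n + 2` some of them are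
     homologically trivial.

Proof. The smash-nilpotent classes form ideals which are stable under pull-backs and push-forwards, so
that the quotients are again rings with the formal properties of the Chow rings, and the gap theorem of my
hand-in `OneRelation` holds for them. If the permanent for `N` is smash-nilpotent, then a power of it is a
relation, from which the vanishing of a larger permanent follows by symmetrization.
-/

set_option autoImplicit false

open Pool.Agent.Run7.h570.GAP

namespace Pool.Agent.Results.MP_bf8edd_ag.SmashNilpotentGap

universe u

/-- Let `R` be a system `A(m)` of rings with the formal properties of the Chow rings of the powers of a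
variety, `a_i` classes in `A(1)` with the invertible symmetric intersection matrix `G` of rank `b`, let the
Euler number be `b - 2 n`, and `t = tr R a G` the complement of the part of the diagonal given by the `a_i`.
Then the one cycle `haf t (n + 1)` on `X ^ (2 n + 2)` is smash-nilpotent if and only if it is zero, if and
only if `Sym^(2 n + 1) (X, t) = 0`; and otherwise the explicit lower bounds and independence statements
hold modulo smash-nilpotent classes. -/
theorem result {R : PowerRings.{u}} {b : ℕ} {a : Fin b → R.A 1} {G : Matrix (Fin b) (Fin b) ℚ}
    (h : PreTate R a G) (n : ℕ)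
    (he : R.push (R.push (R.diag * R.diag)) = algebraMap ℚ (R.A 0) (b - 2 * n)) :
    [haf (tr R a G) (n + 1) = 0, SmashNil R (haf (tr R a G) (n + 1)),
      sym (tr R a G) (2 * n + 1) = 0, ∃ N, SmashNil R (sym (tr R a G) N)].TFAE ∧
    (¬ SmashNil R (haf (tr R a G) (n + 1)) →
      (∀ m : ℕ, ∃ (N : ℕ) (v : Fin N → R.A m), (∀ j, IsProduct R a m (v j)) ∧
        (∀ c : Fin N → ℚ, SmashNil R (∑ j, c j • v j) → c = 0) ∧
        ((b : ℤ) + (2 * n + 4 : ℕ)) ^ m + ((b : ℤ) - (2 * n + 4 : ℕ)) ^ m ≤
          2 * ((m / 2 + (2 * n + 3) * (2 * n + 5)).choose ((2 * n + 3) * (2 * n + 5)) : ℕ) * N) ∧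
      (∀ (k : ℕ) (c : Equiv.Perm (Fin k) → ℚ),
        SmashNil R (∑ σ, c σ • ∏ i, R.pull ![Fin.castAdd k i, Fin.natAdd k (σ i)] (tr R a G)) →
          SuperRel (fun x : Fin (2 * n + 4) => decide (2 ≤ (x : ℕ))) c) ∧
      (∀ m < 6 * (n + 2), ∀ c : Matching m → ℚ,
        SmashNil R (∑ τ, c τ • mprod (tr R a G) τ) → c = 0)) :=
  h.smashGap n he

end Pool.Agent.Results.MP_bf8edd_ag.SmashNilpotentGap
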